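import Pool.Agent.H85.SUComb

set_option autoImplicit false

namespace Pool.Agent.Results.MP_ca7eb7_al.FourInvolutions

open Matrix Polynomial Pool.Agent.H85

theorem diag_case (n : ℕ) (hn : 3 ≤ n) (d : Fin n → ℂ) (hd : ∀ i, d i * star (d i) = 1)
    (hprod : ∏ i, d i = 1) : IsP4 (diagonal d) := by
  -- the sequence extending `d`
  set a : ℕ → ℂ := fun i => if h : i < n then d ⟨i, h⟩ else 1 with ha
  have hau : ∀ i, a i * star (a i) = 1 := by
    intro i
    rw [ha]; dsimp only
    split_ifs
    · exact hd _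
    · simp
  have had : ∀ i : Fin n, a i = d i := by
    intro i; rw [ha]; dsimp only; rw [dif_pos i.isLt]
  have hap : ∏ i ∈ Finset.range n, a i = 1 := by
    rw [← Fin.prod_univ_eq_prod_range a n, ← hprod]
    exact Finset.prod_congr rfl fun i _ => had i
  have hdiag : diagonal d = diagonal (fun i : Fin n => a i) := by
    congr 1; funext i; exact (had i).symm
  rcases Nat.even_or_odd' n with ⟨k, hk | hk⟩
  · -- even dimension
    rcases Nat.even_or_odd k with hke | hko
    · -- divisible by four
      obtain ⟨m, rfl⟩ : ∃ m, k = m + 1 := ⟨k - 1, by omega⟩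
      subst hk
      rw [hdiag]
      exact isP4_four m hke a hau hap
    · -- two modulo four
      obtain ⟨q, rfl⟩ : ∃ q, k = q + 2 := ⟨k - 2, by rcases hko with ⟨j, hj⟩; omega⟩
      have hq : Odd q := by
        rcases hko with ⟨j, hj⟩
        exact ⟨j - 1, by omega⟩
      have hq1 : 1 ≤ q := hq.pos
      set l := List.ofFn d with hl
      have hllen : l.length = 2 * q + 4 := by rw [hl, List.length_ofFn]; omega
      have hlu : ∀ z ∈ l, z * star z = 1 := by
        intro z hz
        rw [hl, List.mem_ofFn] at hz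
        obtain ⟨i, rfl⟩ := hz
        exact hd i
      have hlp : l.prod = 1 := by rw [hl, List.prod_ofFn, hprod]
      have hchar : (diagonal d).charpoly = (l.map (fun z => X - C z)).prod := by
        rw [charpoly_diagonal, hl, List.map_ofFn, List.prod_ofFn]; rfl
      -- the combinatorial choice
      obtain ⟨W, α, β, ζ, ν, j0, hperm, hj0, hbs, hsep⟩ :
          ∃ (W : List ℂ) (α β ζ ν : ℝ) (j0 : ℕ), l.Perm (W ++ [E α, E β, E ζ]) ∧ j0 ≤ q ∧
            (bs (E ν) (fun i => W.getD i 1) (2 * j0) = 1 ∨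
              bs (E ν) (fun i => W.getD i 1) (2 * j0) = -1) ∧ Sep α β ζ ν := by
        have hAB : ∀ s : ℝ, (s = 1 ∨ s = -1) →
            (∀ z ∈ l, ∃ α : ℝ, 0 < α ∧ α < Real.pi ∧ z = E (s * α)) → _ :=
          fun s hs h => case_AB l q hq1 hllen hlp hs h
        have hfin : (∃ (M V : List ℂ) (α β ζ ν : ℝ), l.Perm (M ++ V ++ [E α, E β, E ζ]) ∧
            M.length = q + 1 ∧ (E ν * M.prod = 1 ∨ E ν * M.prod = -1) ∧ Sep α β ζ ν) →
            ∃ (W : List ℂ) (α β ζ ν : ℝ) (j0 : ℕ), l.Perm (W ++ [E α, E β, E ζ]) ∧ j0 ≤ q ∧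
            (bs (E ν) (fun i => W.getD i 1) (2 * j0) = 1 ∨
              bs (E ν) (fun i => W.getD i 1) (2 * j0) = -1) ∧ Sep α β ζ ν := by
          rintro ⟨M, V, α, β, ζ, ν, hp, hM, hpm, hs⟩
          obtain ⟨j, hj⟩ := hq.add_one
          refine ⟨M ++ V, α, β, ζ, ν, j, hp, by omega, ?_, hs⟩
          have h1 : bs (E ν) (fun i => (M ++ V).getD i 1) (2 * j) = E ν * M.prod := by
            unfold bs
            rw [prod_getD_take (M ++ V) (2 * j) (by rw [List.length_append]; omega)]
            congr 2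
            rw [show 2 * j = M.length by omega, List.take_left]
          rw [h1]; exact hpm
        by_cases hU : ∀ z ∈ l, opU z
        · exact hfin (hAB 1 (Or.inl rfl) hU)
        · by_cases hD : ∀ z ∈ l, opD z
          · exact hfin (hAB (-1) (Or.inr rfl) hD)
          · obtain ⟨V, α, β, ζ, ν, hp, hν, hs⟩ := case_C l (by omega) hlu hU hD
            refine ⟨V, α, β, ζ, ν, 0, hp, by omega, ?_, hs⟩
            rw [mul_zero, bs_zero]
            rcases hν with rfl | rfl
            · left; exact E_zero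
            · right; exact E_pi
      have hWlen : W.length = 2 * q + 1 := by
        have := hperm.length_eq
        rw [hllen, List.length_append] at this
        simp at this
        omega
      have hWu : ∀ i, (fun i => W.getD i 1) i * star ((fun i => W.getD i 1) i) = 1 := by
        intro i
        dsimp only
        by_cases hi : i < W.length
        · rw [List.getD_eq_getElem _ _ hi]
          exact hlu _ (hperm.mem_iff.mpr (by simp))
        · rw [List.getD_eq_default _ _ (by omega)]; simp
      have hWprod : (∏ i ∈ Finset.range (2 * q + 1), (fun i => W.getD i 1) i) *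
          (E α * E β * E ζ) = 1 := by
        have h1 := prod_getD_take W (2 * q + 1) (by omega)
        rw [h1, List.take_of_length_le (by omega)]
        have h2 := hperm.prod_eq
        rw [hlp, List.prod_append] at h2
        simp only [List.prod_cons, List.prod_nil, mul_one] at h2
        rw [h2]; ring
      have hmain := isP4_special q hq (fun i => W.getD i 1) hWu α β ζ ν hWprod j0 hj0 hbs hsep
      refine IsP4.transfer (diagonal_unitary hd) _ ?_ hmain
      rw [hchar, (hperm.map _).prod_eq, List.map_append, List.prod_append, Fintype.prod_sum_type,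
        Fintype.prod_sum_type]
      congr 1
      · simp only [Sum.elim_inl]
        rw [Fin.prod_univ_eq_prod_range (fun i => X - C (W.getD i 1)) (2 * q + 1), ← hWlen]
        exact (prod_getD (fun z => X - C z) W).symm
      · simp [Fin.prod_univ_two]
        ring
  · -- odd dimension
    subst hk
    rw [hdiag]
    exact isP4_odd k a hau hap

/-- Every element of `SU(n)`, `n ≥ 3`, is a product of four involutions of `SU(n)`. -/
theorem result (n : ℕ) (hn : 3 ≤ n) (A : Matrix.specialUnitaryGroup (Fin n) ℂ) :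
    ∃ J₁ J₂ J₃ J₄ : Matrix.specialUnitaryGroup (Fin n) ℂ,
      J₁ ^ 2 = 1 ∧ J₂ ^ 2 = 1 ∧ J₃ ^ 2 = 1 ∧ J₄ ^ 2 = 1 ∧ A = J₁ * J₂ * J₃ * J₄ := by
  obtain ⟨hAu, hAd⟩ := mem_specialUnitaryGroup_iff.mp A.2
  obtain ⟨U, hU, d, hd⟩ := unitary_diag hAu
  have hU1 : star U * U = 1 := mem_unitaryGroup_iff'.mp hU
  have hU2 : U * star U = 1 := mem_unitaryGroup_iff.mp hU
  have hdiag : diagonal d = star U * A.1 * U := by
    rw [hd]
    calc diagonal d = (star U * U) * diagonal d * (star U * U) := by rw [hU1, one_mul, mul_one]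
      _ = _ := by noncomm_ring
  have hdu : diagonal d ∈ unitaryGroup (Fin n) ℂ := by
    rw [hdiag]; exact mul_mem (mul_mem (Unitary.star_mem hU) hAu) hU
  have hd1 : ∀ i, d i * star (d i) = 1 := by
    intro i
    have h1 := mem_unitaryGroup_iff.mp hdu
    rw [star_eq_conjTranspose, diagonal_conjTranspose, diagonal_mul_diagonal] at h1
    have h2 := congrFun (congrFun h1 i) i
    rw [diagonal_apply_eq, one_apply_eq] at h2
    exact h2
  have hdp : ∏ i, d i = 1 := by
    rw [← det_diagonal, hdiag, det_mul, det_mul, hAd, mul_one, ← det_mul, hU1, det_one]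
  have h4 : IsP4 A.1 := by
    rw [hd]; exact (diag_case n hn d hd1 hdp).conj hU
  obtain ⟨R, S, ⟨J₁, J₂, h1, h2, h11, h22, rfl⟩, ⟨J₃, J₄, h3, h4, h33, h44, rfl⟩, hA⟩ := h4
  refine ⟨⟨J₁, h1⟩, ⟨J₂, h2⟩, ⟨J₃, h3⟩, ⟨J₄, h4⟩, ?_, ?_, ?_, ?_, ?_⟩
  · apply Subtype.ext; rw [pow_two]; exact h11
  · apply Subtype.ext; rw [pow_two]; exact h22
  · apply Subtype.ext; rw [pow_two]; exact h33
  · apply Subtype.ext; rw [pow_two]; exact h44
  · apply Subtype.ext
    rw [hA, ← mul_assoc]; rfl

end Pool.Agent.Results.MP_ca7eb7_al.FourInvolutions
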